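import Pool.Agent.helper95.PY2.Spec

set_option autoImplicit false

open Finset

namespace Pool.Agent.PY2

/-- majorant -/
noncomputable def WSUM_G (K m : ℕ) : ℝ := if m ≤ K then 4 else (K : ℝ) ^ 2 * ((m : ℝ) ^ 2)⁻¹

lemma WSUM_G_nonneg (K m : ℕ) : 0 ≤ WSUM_G K m := by
  unfold WSUM_G
  split_ifs
  · norm_num
  · positivity

lemma WSUM_G_sum (K n : ℕ) (hK : 1 ≤ K) : ∑ m ∈ range (n + 1), WSUM_G K m ≤ 5 * K + 4 := by
  have hsub : range (n + 1) ⊆ range (K + 1) ∪ Ioc K (K + n) := by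
    intro m hm
    rw [mem_range] at hm
    rw [mem_union, mem_range, mem_Ioc]
    omega
  have hdis : Disjoint (range (K + 1)) (Ioc K (K + n)) := by
    rw [disjoint_left]
    intro m h1 h2
    rw [mem_range] at h1
    rw [mem_Ioc] at h2
    omega
  calc ∑ m ∈ range (n + 1), WSUM_G K m
      ≤ ∑ m ∈ range (K + 1) ∪ Ioc K (K + n), WSUM_G K m :=
        sum_le_sum_of_subset_of_nonneg hsub (fun i _ _ => WSUM_G_nonneg K i)
    _ = ∑ m ∈ range (K + 1), WSUM_G K m + ∑ m ∈ Ioc K (K + n), WSUM_G K m := sum_union hdis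
    _ ≤ 4 * (K + 1) + K := by
        apply add_le_add
        · have : ∀ m ∈ range (K + 1), WSUM_G K m ≤ 4 := by
            intro m hm
            rw [mem_range] at hm
            unfold WSUM_G
            rw [if_pos (by omega)]
          refine (sum_le_sum this).trans ?_
          rw [sum_const, card_range, nsmul_eq_mul]
          push_cast
          linarith
        · have : ∀ m ∈ Ioc K (K + n), WSUM_G K m = (K : ℝ) ^ 2 * ((m : ℝ) ^ 2)⁻¹ := by
            intro m hm
            rw [mem_Ioc] at hm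
            unfold WSUM_G
            rw [if_neg (by omega)]
          rw [sum_congr rfl this, ← mul_sum]
          have h := sum_Ioc_inv_sq_le_sub (α := ℝ) (k := K) (n := K + n) (by omega) (by omega)
          have hK' : (0 : ℝ) < K := by exact_mod_cast hK
          have h2 : (0 : ℝ) ≤ ((K + n : ℕ) : ℝ)⁻¹ := by positivity
          have h3 : ∑ i ∈ Ioc K (K + n), (((i : ℕ) : ℝ) ^ 2)⁻¹ ≤ (K : ℝ)⁻¹ := by linarith
          calc (K : ℝ) ^ 2 * ∑ i ∈ Ioc K (K + n), ((i : ℝ) ^ 2)⁻¹ ≤ (K : ℝ) ^ 2 * (K : ℝ)⁻¹ :=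
                mul_le_mul_of_nonneg_left h3 (by positivity)
            _ = K := by field_simp
    _ = 5 * K + 4 := by ring

lemma WSUM_norm_ps {p : ℕ} [NeZero p] (x : ZMod p) : ‖ps x‖ = 1 := by
  unfold ps
  exact AddChar.norm_apply _ _

lemma WSUM_S_le {p : ℕ} [NeZero p] (R : ℕ) (y : ZMod p) :
    ‖∑ r ∈ range R, ps ((r : ZMod p) * y)‖ ≤ R := by
  refine (norm_sum_le _ _).trans ?_
  simp [WSUM_norm_ps]

lemma WSUM_wf_le4 {p : ℕ} [NeZero p] (R : ℕ) (hR : 1 ≤ R) (y : ZMod p) : wf R y ≤ 4 := by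
  unfold wf
  have h := WSUM_S_le R y
  have hR' : (0 : ℝ) < R := by exact_mod_cast hR
  have h2 : ‖∑ r ∈ range R, ps ((r : ZMod p) * y)‖ ^ 2 ≤ (R : ℝ) ^ 2 := by
    exact pow_le_pow_left₀ (norm_nonneg _) h 2
  calc 4 / (R : ℝ) ^ 2 * ‖∑ r ∈ range R, ps ((r : ZMod p) * y)‖ ^ 2
      ≤ 4 / (R : ℝ) ^ 2 * (R : ℝ) ^ 2 := mul_le_mul_of_nonneg_left h2 (by positivity)
    _ = 4 := by field_simp

theorem WSUM (h1 : GEO_stmt) (h2 : SPC_stmt) : WSUM_stmt := by
  intro p _ N L R y hL hLN hR hp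
  set K : ℕ := 24 * N / L + 1 with hK
  have hL' : (0 : ℝ) < L := by exact_mod_cast hL
  have hR' : (0 : ℝ) < R := by exact_mod_cast hR
  have hN' : (L : ℝ) ≤ N := by exact_mod_cast hLN
  have hK1 : (24 * N : ℝ) ≤ K * L := by
    have : 24 * N ≤ K * L := by
      have := Nat.lt_succ_iff.mp (Nat.lt_succ_of_lt (Nat.lt_div_mul_add hL (a := 24 * N)))
      rw [hK]
      nlinarith
    exact_mod_cast this
  have hK2 : (K : ℝ) * L ≤ 24 * N + L := by
    have : K * L ≤ 24 * N + L := by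
      rw [hK, add_mul, one_mul]
      have := Nat.div_mul_le_self (24 * N) L
      omega
    exact_mod_cast this
  set mm : ℕ → ℕ := fun j => (y - ((j * L : ℕ) : ZMod p)).valMinAbs.natAbs / L with hmm
  have hpt : ∀ j ∈ range (p / L + 1), wf R (y - ((j * L : ℕ) : ZMod p)) ≤ WSUM_G K (mm j) := by
    intro j _
    unfold WSUM_G
    split_ifs with hc
    · exact WSUM_wf_le4 R hR _
    · set z : ZMod p := y - ((j * L : ℕ) : ZMod p) with hz
      have hm0 : K < mm j := not_le.mp hc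
      have hmpos : (0 : ℝ) < (mm j : ℝ) := by
        exact_mod_cast lt_of_le_of_lt (Nat.zero_le _) hm0
      have hnat : mm j * L ≤ z.valMinAbs.natAbs := Nat.div_mul_le_self _ _
      have habs : ((mm j : ℝ) * L) ≤ |(z.valMinAbs : ℝ)| := by
        have e : |(z.valMinAbs : ℝ)| = (z.valMinAbs.natAbs : ℝ) := by
          rw [← Int.cast_abs, Int.abs_eq_natAbs]
          simp
        rw [e]
        exact_mod_cast hnat
      have hg := h1 p R z
      set S : ℝ := ‖∑ r ∈ range R, ps ((r : ZMod p) * z)‖ with hS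
      have hS0 : 0 ≤ S := norm_nonneg _
      have hpR : (p : ℝ) ≤ 24 * N * R := by exact_mod_cast hp
      -- 2 m L S ≤ p ≤ 24 N R ≤ K L R
      have h3 : 2 * ((mm j : ℝ) * L) * S ≤ K * L * R := by
        calc 2 * ((mm j : ℝ) * L) * S ≤ 2 * |(z.valMinAbs : ℝ)| * S := by
              apply mul_le_mul_of_nonneg_right _ hS0
              linarith
          _ ≤ p := hg
          _ ≤ 24 * N * R := hpR
          _ ≤ K * L * R := mul_le_mul_of_nonneg_right hK1 hR'.le
      have h4 : 2 * (mm j : ℝ) * S ≤ K * R := by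
        have : (2 * (mm j : ℝ) * S) * L ≤ (K * R) * L := by linarith [h3]
        exact le_of_mul_le_mul_right this hL'
      unfold wf
      rw [← hS]
      have h5 : S ≤ K * R / (2 * mm j) := by
        rw [le_div_iff₀ (by positivity)]
        linarith
      calc 4 / (R : ℝ) ^ 2 * S ^ 2 ≤ 4 / (R : ℝ) ^ 2 * (K * R / (2 * mm j)) ^ 2 :=
            mul_le_mul_of_nonneg_left (pow_le_pow_left₀ hS0 h5 2) (by positivity)
        _ = (K : ℝ) ^ 2 * ((mm j : ℝ) ^ 2)⁻¹ := by
            field_simp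
            ring
  have hmaps : ∀ j ∈ range (p / L + 1), mm j ∈ range (p + 1) := by
    intro j _
    rw [mem_range, Nat.lt_succ_iff]
    calc mm j ≤ (y - ((j * L : ℕ) : ZMod p)).valMinAbs.natAbs := Nat.div_le_self _ _
      _ ≤ p / 2 := ZMod.natAbs_valMinAbs_le _
      _ ≤ p := Nat.div_le_self _ _
  have hsum : ∑ j ∈ range (p / L + 1), wf R (y - ((j * L : ℕ) : ZMod p)) ≤ 6 * (5 * K + 4) := by
    calc ∑ j ∈ range (p / L + 1), wf R (y - ((j * L : ℕ) : ZMod p))
        ≤ ∑ j ∈ range (p / L + 1), WSUM_G K (mm j) := sum_le_sum hpt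
      _ = ∑ m ∈ range (p + 1), ∑ j ∈ (range (p / L + 1)).filter (fun j => mm j = m),
            WSUM_G K (mm j) := (sum_fiberwise_of_maps_to hmaps _).symm
      _ ≤ ∑ m ∈ range (p + 1), 6 * WSUM_G K m := by
          apply sum_le_sum
          intro m _
          have e : ∑ j ∈ (range (p / L + 1)).filter (fun j => mm j = m), WSUM_G K (mm j) =
              (((range (p / L + 1)).filter (fun j => mm j = m)).card : ℝ) * WSUM_G K m := by
            rw [sum_congr rfl (fun j hj => by rw [(mem_filter.mp hj).2]), sum_const, nsmul_eq_mul]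
          rw [e]
          apply mul_le_mul_of_nonneg_right _ (WSUM_G_nonneg K m)
          exact_mod_cast h2 p L m y hL
      _ = 6 * ∑ m ∈ range (p + 1), WSUM_G K m := (mul_sum _ _ _).symm
      _ ≤ 6 * (5 * K + 4) := by
          apply mul_le_mul_of_nonneg_left _ (by norm_num)
          exact WSUM_G_sum K p (hK ▸ Nat.le_add_left 1 _)
  calc (L : ℝ) * ∑ j ∈ range (p / L + 1), wf R (y - ((j * L : ℕ) : ZMod p))
      ≤ L * (6 * (5 * K + 4)) := mul_le_mul_of_nonneg_left hsum hL'.le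
    _ ≤ 1000 * N := by nlinarith

end Pool.Agent.PY2
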